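import Pool.Agent.H365Z.MY.Main

/-!
MP_1775bc_an, Q1: the nonuniform nonautonomous Markus-Yamabe conjecture holds.

A solution `x` solves the linear system with matrix `∫₀¹ Jf(t, s x(t)) ds`. On every compact time
interval this system is approximated by the systems with matrix `Jf(t, σ(t) x(t))`, `σ` a fast
zigzag with values in `[0, 1]`. Pasting such pieces along a sequence of intervals gives one
continuous `ω` whose linear system shadows `x` backwards in time (attractivity), or has transition
operators of arbitrarily large norm if the origin is unstable (stability).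
-/

set_option autoImplicit false

namespace Pool.Agent.Results.MP_1775bc_an.AFullProof

open Set Pool.Agent.H365Z.MY

/-- Let `E` be a finite-dimensional real normed space (`ℝⁿ` with any norm). Let `f` be continuous
on `[0, ∞) × E`, differentiable in `x` with Jacobian continuous on `[0, ∞) × E`, `f(t, 0) = 0`, and
assume that for every continuous `ω` the linear system `y' = Jf(t, ω(t)) y` has a nonuniform
exponential dichotomy with `P ≡ I` (constants depending on `ω`). Then the origin is globally
nonuniformly asymptotically stable. -/
theorem result {E : Type} [NormedAddCommGroup E] [NormedSpace ℝ E] [FiniteDimensional ℝ E]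
    (f : ℝ → E → E)
    (hf : ContinuousOn (fun p : ℝ × E => f p.1 p.2) (Ici 0 ×ˢ univ))
    (hd : ∀ t, 0 ≤ t → Differentiable ℝ (f t))
    (hJ : ContinuousOn (fun p : ℝ × E => fderiv ℝ (f p.1) p.2) (Ici 0 ×ˢ univ))
    (h0 : ∀ t, 0 ≤ t → f t 0 = 0)
    (G3 : ∀ ω : ℝ → E, Continuous ω → NonuniformContraction fun t => fderiv ℝ (f t) (ω t)) :
    GloballyNonuniformlyAsymptoticallyStable f :=
  main f hf hd hJ h0 G3

end Pool.Agent.Results.MP_1775bc_an.AFullProof
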